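import Mathlib
import Pool.Graph.R_seed8.W671.WU11

/-!
Uniform bounds on a closed contact manifold: the contact form, its differential and vector fields
are bounded in the metric of an immersion.
-/

open scoped Topology ContDiff Manifold
open Set Filter Pool.Agent.Helper186 Pool.Agent.H826R2 Pool.Agent.H826R2.Wein Pool.Agent.W671.WU

noncomputable section

set_option linter.unusedSectionVars false

namespace Pool.Agent.H754.Reeb

universe u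

variable {E : Type u} [NormedAddCommGroup E] [NormedSpace ℝ E] [FiniteDimensional ℝ E]
  {M : Type*} [TopologicalSpace M] [ChartedSpace E M] [IsManifold 𝓘(ℝ, E) ∞ M]
  {n : ℕ}

/-- a continuous function on a compact space is bounded -/
lemma exists_abs_le [CompactSpace M] {f : M → ℝ} (hf : Continuous f) :
    ∃ A : ℝ, 0 ≤ A ∧ ∀ x, |f x| ≤ A := by
  obtain ⟨A, hA⟩ := (isCompact_univ (X := M)).exists_bound_of_continuousOn (f := f)
    hf.continuousOn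
  refine ⟨max A 0, le_max_right _ _, fun x => ?_⟩
  have h := hA x (mem_univ x)
  rw [Real.norm_eq_abs] at h
  exact h.trans (le_max_left _ _)

/-- the differential of a smooth function is bounded -/
lemma dForm_bound [CompactSpace M] (ι : Imm (E := E) M n) {f : M → ℝ}
    (hf : ContMDiff 𝓘(ℝ, E) 𝓘(ℝ, ℝ) ∞ f) :
    ∃ A : ℝ, 0 ≤ A ∧ ∀ (x : M) (v : TangentSpace 𝓘(ℝ, E) x),
      |dForm 𝓘(ℝ, E) f x v| ≤ A * ‖ι.D x v‖ := by
  obtain ⟨A, hA, h⟩ := exists_abs_le (ι.smooth_G hf).continuous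
  refine ⟨Real.sqrt A, Real.sqrt_nonneg _, fun x v => ?_⟩
  rw [← ι.grad_spec f x v, ι.B_apply]
  refine (abs_real_inner_le_norm _ _).trans ?_
  refine mul_le_mul_of_nonneg_right ?_ (norm_nonneg _)
  refine Real.le_sqrt_of_sq_le ?_
  rw [← ι.G_eq]
  exact (le_abs_self _).trans (h x)

/-- a smooth one-form is bounded -/
lemma form_bound [CompactSpace M] (ι : Imm (E := E) M n)
    {β : (x : M) → TangentSpace 𝓘(ℝ, E) x →L[ℝ] ℝ} (hβ : SmoothForm β) :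
    ∃ A : ℝ, 0 ≤ A ∧ ∀ (x : M) (v : TangentSpace 𝓘(ℝ, E) x), |β x v| ≤ A * ‖ι.D x v‖ := by
  obtain ⟨f, hf, hrep⟩ := exists_rep ι hβ
  choose A hA h using fun i => exists_abs_le (hf i).continuous
  choose B hB h' using fun i => dForm_bound ι (smooth_coord ι i)
  refine ⟨∑ i, A i * B i, Finset.sum_nonneg fun i _ => mul_nonneg (hA i) (hB i), fun x v => ?_⟩
  rw [hrep, Finset.sum_mul]
  refine (Finset.abs_sum_le_sum_abs _ _).trans (Finset.sum_le_sum fun i _ => ?_)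
  rw [abs_mul, mul_assoc]
  exact mul_le_mul (h i x) (h' i x v) (abs_nonneg _) (hA i)

/-- the exterior derivative of a smooth one-form is bounded -/
lemma extDer_bound [CompactSpace M] (ι : Imm (E := E) M n)
    {β : (x : M) → TangentSpace 𝓘(ℝ, E) x →L[ℝ] ℝ} (hβ : SmoothForm β) :
    ∃ A : ℝ, 0 ≤ A ∧ ∀ (x : M) (u v : TangentSpace 𝓘(ℝ, E) x),
      |extDer 𝓘(ℝ, E) β x u v| ≤ A * ‖ι.D x u‖ * ‖ι.D x v‖ := by
  obtain ⟨f, hf, hrep⟩ := exists_rep ι hβ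
  choose A hA h using fun i => dForm_bound ι (hf i)
  choose B hB h' using fun i => dForm_bound ι (smooth_coord ι i)
  refine ⟨∑ i, (A i * B i + A i * B i), Finset.sum_nonneg fun i _ =>
    add_nonneg (mul_nonneg (hA i) (hB i)) (mul_nonneg (hA i) (hB i)), fun x u v => ?_⟩
  rw [extDer_rep hf (fun i => smooth_coord ι i) hrep x (show E from u) (show E from v),
    Finset.sum_mul, Finset.sum_mul]
  refine (Finset.abs_sum_le_sum_abs _ _).trans (Finset.sum_le_sum fun i _ => ?_)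
  have e1 : ∀ z : E, |fderiv ℝ (cf x (f i)) (extChartAt 𝓘(ℝ, E) x x) z| ≤
      A i * ‖ι.D x z‖ := by
    intro z
    rw [fderiv_cf_self x (hf i) z]
    exact h i x z
  have e2 : ∀ z : E, |fderiv ℝ (cf x (fun y => ι.F y i)) (extChartAt 𝓘(ℝ, E) x x) z| ≤
      B i * ‖ι.D x z‖ := by
    intro z
    rw [fderiv_cf_self x (smooth_coord ι i) z]
    exact h' i x z
  refine (abs_sub _ _).trans ?_
  rw [abs_mul, abs_mul]
  have n1 := mul_le_mul (e1 u) (e2 v) (abs_nonneg _) (mul_nonneg (hA i) (norm_nonneg _))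
  have n2 := mul_le_mul (e1 v) (e2 u) (abs_nonneg _) (mul_nonneg (hA i) (norm_nonneg _))
  calc _ ≤ A i * ‖ι.D x u‖ * (B i * ‖ι.D x v‖) + A i * ‖ι.D x v‖ * (B i * ‖ι.D x u‖) :=
      add_le_add n1 n2
    _ = _ := by ring

/-- a smooth vector field is bounded -/
lemma field_bound [CompactSpace M] (ι : Imm (E := E) M n)
    {X : (x : M) → TangentSpace 𝓘(ℝ, E) x}
    (hX : ContMDiff 𝓘(ℝ, E) 𝓘(ℝ, E).tangent ∞ (fun x => (⟨x, X x⟩ : TangentBundle 𝓘(ℝ, E) M))) :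
    ∃ A : ℝ, 0 ≤ A ∧ ∀ x, ‖ι.D x (X x)‖ ≤ A := by
  have h1 : ContMDiff 𝓘(ℝ, E) 𝓘(ℝ, ℝ) ∞ (fun x => ι.B x (X x) (X x)) := fun x =>
    ι.smoothBilin x X X (hX x) (hX x)
  obtain ⟨A, hA, h⟩ := exists_abs_le h1.continuous
  refine ⟨Real.sqrt A, Real.sqrt_nonneg _, fun x => ?_⟩
  refine Real.le_sqrt_of_sq_le ?_
  have h2 := h x
  rw [ι.B_apply, real_inner_self_eq_norm_sq] at h2
  exact (le_abs_self _).trans h2

lemma euclid_norm_le (w : EuclideanSpace ℝ (Fin n)) : ‖w‖ ≤ ∑ i, |w i| := by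
  have h : ‖w‖ = Real.sqrt (∑ i, ‖w i‖ ^ 2) := EuclideanSpace.norm_eq w
  rw [h]
  refine Real.sqrt_le_iff.2 ⟨Finset.sum_nonneg fun i _ => abs_nonneg _, ?_⟩
  simp only [Real.norm_eq_abs]
  exact Finset.sum_sq_le_sq_sum_of_nonneg fun i _ => abs_nonneg _

/-- A time map of a flow of contact type: it preserves `dβ` and maps `X = h R` to itself. -/
structure TypeMap (β : (x : M) → TangentSpace 𝓘(ℝ, E) x →L[ℝ] ℝ)
    (R : (x : M) → TangentSpace 𝓘(ℝ, E) x) (h : M → ℝ) (g : M → M) : Prop where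
  smooth : ContMDiff 𝓘(ℝ, E) 𝓘(ℝ, E) ∞ g
  two : ∀ (x : M) (u v : TangentSpace 𝓘(ℝ, E) x),
    extDer 𝓘(ℝ, E) β (g x) (mfderiv 𝓘(ℝ, E) 𝓘(ℝ, E) g x u) (mfderiv 𝓘(ℝ, E) 𝓘(ℝ, E) g x v) =
      extDer 𝓘(ℝ, E) β x u v
  push : ∀ x, h x • (mfderiv 𝓘(ℝ, E) 𝓘(ℝ, E) g x (R x) : TangentSpace 𝓘(ℝ, E) (g x)) =
    h (g x) • R (g x)

/-- **The inverse bound.** -/
theorem inv_bound [CompactSpace M] (ι : Imm (E := E) M n)
    {β : (x : M) → TangentSpace 𝓘(ℝ, E) x →L[ℝ] ℝ}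
    {R : (x : M) → TangentSpace 𝓘(ℝ, E) x} (c : CD β R) {h : M → ℝ} {m H : ℝ} (hm : 0 < m)
    (hmh : ∀ x, m ≤ h x) (hhH : ∀ x, h x ≤ H) :
    ∃ A : ℝ, 1 ≤ A ∧ ∀ g : M → M, TypeMap β R h g → ∀ C : ℝ, 1 ≤ C →
      (∀ (x : M) (v : TangentSpace 𝓘(ℝ, E) x),
        ‖ι.D (g x) (mfderiv 𝓘(ℝ, E) 𝓘(ℝ, E) g x v)‖ ≤ C * ‖ι.D x v‖) →
      ∀ (x : M) (v : TangentSpace 𝓘(ℝ, E) x),
        ‖ι.D x v‖ ≤ A * C ^ 2 * ‖ι.D (g x) (mfderiv 𝓘(ℝ, E) 𝓘(ℝ, E) g x v)‖ := by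
  obtain ⟨A₁, hA₁, h₁⟩ := form_bound ι c.contact.smooth
  obtain ⟨A₂, hA₂, h₂⟩ := extDer_bound ι c.contact.smooth
  obtain ⟨A₄, hA₄, h₄⟩ := field_bound ι (smooth_reeb c)
  choose D hD hX using fun i => field_bound ι (c.smooth_X (smooth_coord ι i))
  set A₃ : ℝ := ∑ i, A₂ * D i with hA₃
  have hA₃0 : 0 ≤ A₃ := Finset.sum_nonneg fun i _ => mul_nonneg hA₂ (hD i)
  have hHm : 0 ≤ max (H / m) 0 := le_max_right _ _
  set H₀ : ℝ := max (H / m) 0 with hH₀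
  refine ⟨1 + (A₃ + H₀ * A₁ * (1 + A₃) * A₄), ?_, fun g hg C hC hgC x v => ?_⟩
  · have : 0 ≤ A₃ + H₀ * A₁ * (1 + A₃) * A₄ := by positivity
    linarith
  set w : TangentSpace 𝓘(ℝ, E) (g x) := mfderiv 𝓘(ℝ, E) 𝓘(ℝ, E) g x v with hw
  have hC0 : 0 ≤ C := zero_le_one.trans hC
  have hCC : C ≤ C ^ 2 := by nlinarith
  -- the component transversal to `R`
  set z : TangentSpace 𝓘(ℝ, E) x := v - β x v • R x with hz
  have key : ∀ i, |(ι.D x z) i| ≤ A₂ * D i * C * ‖ι.D (g x) w‖ := by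
    intro i
    have e1 := c.X_spec (fun y => ι.F y i) x v
    have e3 := c.X_spec (fun y => ι.F y i) x (R x)
    rw [HB_apply] at e1 e3
    rw [c.reeb.unit, extDer_antisymm (β := β) x (c.X (fun y => ι.F y i) x) (R x),
      c.reeb.kernel] at e3
    have e2 : dForm 𝓘(ℝ, E) (fun y => ι.F y i) x z =
        - extDer 𝓘(ℝ, E) β x (c.X (fun y => ι.F y i) x) v := by
      rw [hz, map_sub, map_smul, smul_eq_mul]
      have e4 : β x (c.X (fun y => ι.F y i) x) =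
          ι.F x i - dForm 𝓘(ℝ, E) (fun y => ι.F y i) x (R x) := by linarith
      rw [e4] at e1
      linarith
    rw [D_coord, e2, abs_neg, ← hg.two x]
    refine (h₂ (g x) _ _).trans ?_
    refine mul_le_mul_of_nonneg_right ?_ (norm_nonneg _)
    calc _ ≤ A₂ * (C * D i) := by
          refine mul_le_mul_of_nonneg_left ?_ hA₂
          exact (hgC x _).trans (mul_le_mul_of_nonneg_left (hX i x) hC0)
      _ = _ := by ring
  have hzn : ‖ι.D x z‖ ≤ A₃ * C * ‖ι.D (g x) w‖ := by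
    refine (euclid_norm_le _).trans ((Finset.sum_le_sum fun i _ => key i).trans (le_of_eq ?_))
    rw [← Finset.sum_mul, ← Finset.sum_mul]
  -- the component along `R`
  have hβ : β (g x) w = β x v * (h (g x) / h x) + β (g x) (mfderiv 𝓘(ℝ, E) 𝓘(ℝ, E) g x z) := by
    have hx : h x ≠ 0 := (hm.trans_le (hmh x)).ne'
    have e1 : v = β x v • R x + z := by rw [hz]; abel
    have e2 : w = β x v • (mfderiv 𝓘(ℝ, E) 𝓘(ℝ, E) g x (R x)) +
        mfderiv 𝓘(ℝ, E) 𝓘(ℝ, E) g x z := by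
      rw [hw]
      conv_lhs => rw [e1]
      rw [map_add, map_smul]
    have e3 : (mfderiv 𝓘(ℝ, E) 𝓘(ℝ, E) g x (R x) : TangentSpace 𝓘(ℝ, E) (g x)) =
        (h (g x) / h x) • R (g x) := by
      have e4 := hg.push x
      have e5 := congrArg (fun y : TangentSpace 𝓘(ℝ, E) (g x) => (h x)⁻¹ • y) e4
      simp only [smul_smul, inv_mul_cancel₀ hx, one_smul] at e5
      rw [e5]
      congr 1
      field_simp
    rw [e2, e3, map_add, map_smul, map_smul, c.reeb.unit, smul_eq_mul, smul_eq_mul, mul_one]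
  have hβv : |β x v| ≤ H₀ * (A₁ * (1 + A₃) * C ^ 2 * ‖ι.D (g x) w‖) := by
    have hx : 0 < h x := hm.trans_le (hmh x)
    have hgx : 0 < h (g x) := hm.trans_le (hmh (g x))
    have e1 : β x v = (h x / h (g x)) * (β (g x) w - β (g x) (mfderiv 𝓘(ℝ, E) 𝓘(ℝ, E) g x z)) := by
      rw [hβ]
      field_simp
      ring
    have e2 : |h x / h (g x)| ≤ H₀ := by
      rw [abs_of_pos (div_pos hx hgx)]
      refine le_trans ?_ (le_max_left _ _)
      exact div_le_div₀ (hx.le.trans (hhH x)) (hhH x) hm (hmh _)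
    have e3 : |β (g x) w - β (g x) (mfderiv 𝓘(ℝ, E) 𝓘(ℝ, E) g x z)| ≤
        A₁ * (1 + A₃) * C ^ 2 * ‖ι.D (g x) w‖ := by
      refine (abs_sub _ _).trans ?_
      have n1 := h₁ (g x) w
      have n2 : |β (g x) (mfderiv 𝓘(ℝ, E) 𝓘(ℝ, E) g x z)| ≤
          A₁ * (C * (A₃ * C * ‖ι.D (g x) w‖)) := by
        refine (h₁ (g x) _).trans (mul_le_mul_of_nonneg_left ?_ hA₁)
        exact (hgC x z).trans (mul_le_mul_of_nonneg_left hzn hC0)
      have n3 : A₁ * ‖ι.D (g x) w‖ ≤ A₁ * ‖ι.D (g x) w‖ * C ^ 2 := by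
        have : (1 : ℝ) ≤ C ^ 2 := hC.trans hCC
        exact le_mul_of_one_le_right (mul_nonneg hA₁ (norm_nonneg _)) this
      calc _ ≤ A₁ * ‖ι.D (g x) w‖ + A₁ * (C * (A₃ * C * ‖ι.D (g x) w‖)) := add_le_add n1 n2
        _ ≤ A₁ * ‖ι.D (g x) w‖ * C ^ 2 + A₁ * (C * (A₃ * C * ‖ι.D (g x) w‖)) := by linarith
        _ = _ := by ring
    rw [e1, abs_mul]
    exact mul_le_mul e2 e3 (abs_nonneg _) hHm
  have hv : ι.D x v = ι.D x z + β x v • ι.D x (R x) := by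
    rw [hz, map_sub, map_smul]
    abel
  rw [hv]
  refine (norm_add_le _ _).trans ?_
  rw [norm_smul, Real.norm_eq_abs]
  have n1 : |β x v| * ‖ι.D x (R x)‖ ≤ H₀ * (A₁ * (1 + A₃) * C ^ 2 * ‖ι.D (g x) w‖) * A₄ :=
    mul_le_mul hβv (h₄ x) (norm_nonneg _) (by positivity)
  have n2 : A₃ * C * ‖ι.D (g x) w‖ ≤ A₃ * C ^ 2 * ‖ι.D (g x) w‖ :=
    mul_le_mul_of_nonneg_right (mul_le_mul_of_nonneg_left hCC hA₃0) (norm_nonneg _)
  have n3 : 0 ≤ C ^ 2 * ‖ι.D (g x) w‖ := by positivity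
  calc _ ≤ A₃ * C ^ 2 * ‖ι.D (g x) w‖ + H₀ * (A₁ * (1 + A₃) * C ^ 2 * ‖ι.D (g x) w‖) * A₄ :=
        add_le_add (hzn.trans n2) n1
    _ = (A₃ + H₀ * A₁ * (1 + A₃) * A₄) * (C ^ 2 * ‖ι.D (g x) w‖) := by ring
    _ ≤ (1 + (A₃ + H₀ * A₁ * (1 + A₃) * A₄)) * (C ^ 2 * ‖ι.D (g x) w‖) := by
        refine mul_le_mul_of_nonneg_right ?_ n3
        linarith
    _ = _ := by ring

end Pool.Agent.H754.Reeb
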