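import Mathlib
import Pool.Graph.R_seed8.W671.WU11

/-!
Closed orbits of a recurrent flow of contact type, with the position of the periods. The proofs follow
the library modules `W671.WV2` and `W671.WU11`, keeping track of the periods.
-/

open scoped Topology ContDiff Manifold
open Set Filter MeasureTheory Pool.Agent.Helper186 Pool.Agent.H826R2 Pool.Agent.H826R2.WStmt

noncomputable section

set_option linter.unusedSectionVars false

namespace Pool.Agent.H754.Reeb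

universe u

open Pool.Agent.W671 Pool.Agent.W671.WU Pool.Agent.W671.RStmt

section

open Pool.Agent.H826R2.Wein

variable {E : Type u} [NormedAddCommGroup E] [NormedSpace ℝ E] [FiniteDimensional ℝ E]
  {P : Type*} [TopologicalSpace P] [ChartedSpace E P] [IsManifold 𝓘(ℝ, E) ∞ P]
  {F : Type*} [NormedAddCommGroup F] [NormedSpace ℝ F]
  {β : (x : P) → TangentSpace 𝓘(ℝ, E) x →L[ℝ] ℝ}
  {R : (x : P) → TangentSpace 𝓘(ℝ, E) x} {Fl : P → ℝ → P}

attribute [local irreducible] S A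

/-- **Core theorem**: closed orbits of a transversely recurrent Reeb flow with periods near the return
times. -/
theorem reeb_core' [T2Space P] [CompactSpace P] [Nonempty P] (hdim : 1 < Module.finrank ℝ E)
    (c : CD β R) (h : RF β R Fl)
    {e : P → F} (he : ContMDiff 𝓘(ℝ, E) 𝓘(ℝ, F) ∞ e) (hinj : Function.Injective e)
    (himm : ∀ x, Function.Injective (mfderiv 𝓘(ℝ, E) 𝓘(ℝ, F) e x))
    {τ : ℕ → P → ℝ} (hτ : ∀ k, Continuous (τ k)) {c₀ : ℝ} (hc₀ : 0 < c₀)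
    (hτc : ∀ k x, c₀ ≤ τ k x)
    (hconv : ∀ ε > 0, ∀ᶠ k in atTop, ∀ x, ‖e (Fl x (τ k x)) - e x‖ < ε) {C : ℝ}
    (hmod : ∀ᶠ k in atTop, ∀ (x : P), ∃ lam : E →L[ℝ] ℝ, ∀ (v : E),
      ‖dv E e (Fl x (τ k x)) (dm E (fun y => Fl y (τ k x)) x v) +
        lam v • dv E e (Fl x (τ k x)) (R (Fl x (τ k x)))‖ ≤ C * ‖dv E e x v‖ ∧
      ‖dv E e x v‖ ≤ C * ‖dv E e (Fl x (τ k x)) (dm E (fun y => Fl y (τ k x)) x v) +
        lam v • dv E e (Fl x (τ k x)) (R (Fl x (τ k x))) + dv E e x v‖) {ρ : ℝ} (hρ : 0 < ρ) :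
    ∀ᶠ k in atTop, ∃ (x₁ : P) (T₁ : ℝ) (x₂ : P) (T₂ : ℝ), 0 < T₁ ∧ 0 < T₂ ∧
      |T₁ - τ k x₁| ≤ ρ ∧ |T₂ - τ k x₂| ≤ ρ ∧ Fl x₁ T₁ = x₁ ∧ Fl x₂ T₂ = x₂ ∧
      ∀ u v, Fl x₁ u ≠ Fl x₂ v := by
  obtain ⟨m, e₀, he₀, -, hinj₀⟩ := exists_embedding_euclidean_of_compact (I := 𝓘(ℝ, E)) (M := P)
  obtain ⟨f, hf, hrep⟩ := exists_rep (⟨e₀, he₀, hinj₀⟩ : Imm (E := E) P m) c.contact.smooth
  obtain ⟨g, hg, hrep⟩ : ∃ g : Fin m → P → ℝ, (∀ i, ContMDiff 𝓘(ℝ, E) 𝓘(ℝ, ℝ) ∞ (g i)) ∧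
      ∀ (x : P) (v : TangentSpace 𝓘(ℝ, E) x),
        β x v = ∑ i, f i x * dForm 𝓘(ℝ, E) (g i) x v :=
    ⟨_, fun i => smooth_coord _ i, hrep⟩
  have hFc : Continuous (fun p : P × ℝ => Fl p.1 p.2) := h.smooth.continuous
  have hcρ : 0 < min c₀ ρ := lt_min hc₀ hρ
  obtain ⟨δ, hδ, hδc, ε, hε, hwin⟩ := exists_window (c := min c₀ ρ) hf hg (smooth_reeb c)
    c.reeb.unit hrep h.zero hFc he.continuous hinj hcρ
  have hδ₁ : δ < c₀ := hδc.trans_le (min_le_left _ _)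
  have hδ₂ : δ < ρ := hδc.trans_le (min_le_right _ _)
  have hw : ∀ᶠ k in atTop, Win f g R Fl (τ k) δ := by
    filter_upwards [hconv ε hε] with k hk
    exact ⟨hf, hg, ⟨h.zero, h.int⟩, hFc, hτ k, hδ,
      fun x s hs => by
        have := (hwin x _ (hk x)).1 s hs
        rwa [← h.add] at this,
      fun x => (hwin x _ (hk x)).2⟩
  filter_upwards [hw, closed_of_crit c h hf hg hrep he hinj himm hw hconv hmod] with k hwk hclosed
  obtain ⟨x₁, s₁, x₂, s₂, hs₁, hs₂, hc₁, hc₂, heq⟩ := hwk.exists_extrema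
  have hm₁ : τ k x₁ + s₁ - τ k x₁ ∈ Icc (-δ) δ := by rw [add_sub_cancel_left]; exact hs₁
  have hm₂ : τ k x₂ + s₂ - τ k x₂ ∈ Icc (-δ) δ := by rw [add_sub_cancel_left]; exact hs₂
  have e₁ := hclosed x₁ _ hm₁ hc₁
  have e₂ := hclosed x₂ _ hm₂ hc₂
  have p₁ : 0 < τ k x₁ + s₁ := by
    have := hτc k x₁
    linarith [hs₁.1]
  have p₂ : 0 < τ k x₂ + s₂ := by
    have := hτc k x₂
    linarith [hs₂.1]
  have hab : ∀ {z : ℝ}, z ∈ Icc (-δ) δ → |z| ≤ ρ := fun {z} hz => (abs_le.2 hz).trans hδ₂.le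
  by_cases hdis : ∀ u v, Fl x₁ u ≠ Fl x₂ v
  · exact ⟨x₁, _, x₂, _, p₁, p₂, hab hm₁, hab hm₂, e₁, e₂, hdis⟩
  · push Not at hdis
    obtain ⟨u, v, huv⟩ := hdis
    have hr : Fl x₁ (u + -v) = x₂ := by
      rw [h.add, huv, ← h.add, add_neg_cancel, h.zero]
    have hT := hwk.same_orbit h.add hm₁ hm₂ e₁ e₂ hr
    have hall : ∀ x, Fl x (τ k x₁ + s₁) = x := fun x =>
      hclosed x _ (heq hT x).1 (heq hT x).2
    obtain ⟨y, hy⟩ := exists_other hdim h.smooth x₁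
    refine ⟨x₁, _, y, _, p₁, p₁, hab hm₁, hab (heq hT y).1, e₁, hall y, fun a b hab => ?_⟩
    apply hy (a + -b)
    rw [h.add, hab, ← h.add, add_neg_cancel, h.zero]

end

variable {E : Type u} [NormedAddCommGroup E] [NormedSpace ℝ E] [FiniteDimensional ℝ E]
  {M : Type*} [TopologicalSpace M] [ChartedSpace E M] [IsManifold 𝓘(ℝ, E) ∞ M]
  {F : Type*} [NormedAddCommGroup F] [NormedSpace ℝ F]

/-- the integral of a function `≥ m` between two points -/
lemma abs_sub_le_integral {g : ℝ → ℝ} (hg : Continuous g) {m : ℝ}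
    (hgm : ∀ s, m ≤ g s) (a b : ℝ) :
    m * |b - a| ≤ |(∫ r in (0:ℝ)..b, g r) - ∫ r in (0:ℝ)..a, g r| := by
  have key : ∀ a b : ℝ, a ≤ b → m * (b - a) ≤ ∫ r in a..b, g r := by
    intro a b hab
    have h2 := intervalIntegral.integral_mono_on (μ := volume) hab
      (f := fun _ => m) (g := g) intervalIntegrable_const (hg.intervalIntegrable _ _)
      fun r _ => hgm r
    rw [intervalIntegral.integral_const, smul_eq_mul] at h2
    linarith
  rw [intervalIntegral.integral_interval_sub_left (hg.intervalIntegrable _ _)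
    (hg.intervalIntegrable _ _)]
  rcases le_total a b with hab | hab
  · rw [abs_of_nonneg (sub_nonneg.2 hab)]
    exact (key a b hab).trans (le_abs_self _)
  · rw [abs_sub_comm, abs_of_nonneg (sub_nonneg.2 hab), intervalIntegral.integral_symm, abs_neg]
    exact (key b a hab).trans (le_abs_self _)

/-- closed orbits of a recurrent flow of contact type, with periods near the return times -/
theorem periodic_of_recurrent' [T2Space M] [CompactSpace M] [Nonempty M]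
    (hdim : 1 < Module.finrank ℝ E)
    (α : M → Cov E) (hα : WStmt.IsContact α) (R : M → E) (hR : WStmt.IsReeb α R)
    (h : M → ℝ) (hh : ContMDiff 𝓘(ℝ, E) 𝓘(ℝ, ℝ) ∞ h) (hpos : ∀ x, 0 < h x)
    (Φ : M → ℝ → M) (hΦ : IsFlow (fun x => h x • R x) Φ)
    (e : M → F) (he : IsInjImmersion (E := E) e) (τ : ℕ → M → ℝ)
    (hτ : Recurrent e (fun x => h x • R x) Φ τ) {ρ : ℝ} (hρ : 0 < ρ) :
    ∀ᶠ k in atTop, ∃ (y₁ y₂ : M) (T₁ T₂ : ℝ), IsPeriodicOrbit (fun x => h x • R x) (Φ y₁) T₁ ∧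
      IsPeriodicOrbit (fun x => h x • R x) (Φ y₂) T₂ ∧ Disjoint (range (Φ y₁)) (range (Φ y₂)) ∧
      |T₁ - τ k y₁| ≤ ρ ∧ |T₂ - τ k y₂| ≤ ρ := by
  have : IsManifold 𝓘(ℝ, E) 1 M := IsManifold.of_le (n := ∞) (by simp)
  have c : Wein.CD (toForm α) (fun x => (R x : TangentSpace 𝓘(ℝ, E) x)) := ⟨hα.toWein, hR.toWein⟩
  have hRs := WU.smooth_reeb c
  have hXs := WU.smooth_smul hh hRs
  have hΦs := contMDiff_flow hXs hΦ.zero hΦ.integral
  -- the minimum of `h`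
  obtain ⟨x₁, -, hx₁⟩ := (isCompact_univ (X := M)).exists_isMinOn univ_nonempty
    hh.continuous.continuousOn
  have hhm : ∀ x, h x₁ ≤ h x := fun x => hx₁ (mem_univ x)
  -- the Reeb flow
  choose Fl hF0 hF using fun x : M => Wein.complete_of_compact hRs isCompact_univ
    (fun y hy => absurd (mem_univ y) hy) x
  have hRF := WU.RF.of c hF0 hF
  have htc := fun x => WU.time_change hRs hh (hpos x₁) hhm hΦ.zero hΦ.integral hF0 hF x
  have hk : ContMDiff (𝓘(ℝ, ℝ).prod 𝓘(ℝ, E)) 𝓘(ℝ, ℝ) ∞ (fun p : ℝ × M => h (Φ p.2 p.1)) :=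
    hh.comp (hΦs.comp (contMDiff_snd.prodMk contMDiff_fst))
  have hTs : ∀ s, ContMDiff 𝓘(ℝ, E) 𝓘(ℝ, ℝ) ∞ (fun x => ∫ r in (0:ℝ)..s, h (Φ x r)) := fun s =>
    contMDiff_paramInt hk s
  obtain ⟨c₀, hc₀, hc₀'⟩ := hτ.lower
  obtain ⟨C, hC⟩ := hτ.deriv
  have hcore := reeb_core' (F := F) hdim c hRF he.smooth
    he.injective he.immersion
    (τ := fun k x => ∫ r in (0:ℝ)..(τ k x), h (Φ x r)) (c₀ := c₀ * h x₁) (C := C)
    (fun k => by
      refine intervalIntegral.continuous_parametric_intervalIntegral_of_continuous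
        (f := fun x r => h (Φ x r)) ?_ (hτ.cont k)
      exact hh.continuous.comp hΦs.continuous)
    (mul_pos hc₀ (hpos x₁))
    (fun k x => by
      have h1 : ∀ r ∈ Icc 0 (τ k x), h x₁ ≤ h (Φ x r) := fun r _ => hhm _
      have h0 : 0 ≤ τ k x := hc₀.le.trans (hc₀' k x)
      have h2 := intervalIntegral.integral_mono_on (μ := volume) h0
        (f := fun _ => h x₁) (g := fun r => h (Φ x r))
        intervalIntegrable_const
        ((hh.continuous.comp (hΦ.integral x).continuous).intervalIntegrable _ _) h1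
      rw [intervalIntegral.integral_const, smul_eq_mul, sub_zero] at h2
      refine le_trans ?_ h2
      exact mul_le_mul_of_nonneg_right (hc₀' k x) (hpos x₁).le)
    (fun ε hε => by
      filter_upwards [hτ.uniform ε hε] with k hk x
      have := hk x
      rw [(htc x).1] at this
      exact this)
    (by
      filter_upwards [hC] with k hk x
      obtain ⟨lam, hlam⟩ := hk x
      obtain ⟨b, hb⟩ := WU.deriv_time_change (R := fun x => (R x : TangentSpace 𝓘(ℝ, E) x))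
        hRF.smooth hF (hTs (τ k x)) (s := τ k x) (Φ := Φ) (fun y => (htc y).1 _) x
      refine ⟨b + h (Φ x (τ k x)) • lam, fun v => ?_⟩
      have ha := hlam v
      have e1 : D (E := E) (E' := E) (fun y => Φ y (τ k x)) x v =
          WU.dm E (fun y => Φ y (τ k x)) x v := rfl
      rw [e1, hb v] at ha
      have e2 : Fl x (∫ r in (0:ℝ)..(τ k x), h (Φ x r)) = Φ x (τ k x) := ((htc x).1 _).symm
      rw [e2] at ha ⊢
      have e3 : D (E := E) (E' := F) e (Φ x (τ k x))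
          (WU.dm E (fun y => Fl y (∫ r in (0:ℝ)..(τ k x), h (Φ x r))) x v +
            b v • R (Φ x (τ k x)) + lam v • h (Φ x (τ k x)) • R (Φ x (τ k x))) =
          WU.dv E e (Φ x (τ k x))
            (WU.dm E (fun y => Fl y (∫ r in (0:ℝ)..(τ k x), h (Φ x r))) x v) +
            (b + h (Φ x (τ k x)) • lam) v • WU.dv E e (Φ x (τ k x)) (R (Φ x (τ k x))) := by
        have e4 : (b + h (Φ x (τ k x)) • lam) v = b v + lam v * h (Φ x (τ k x)) := by
          rw [add_apply, smul_apply, smul_eq_mul]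
          ring
        rw [smul_smul, add_assoc, ← add_smul, map_add, map_smul, e4]
        rfl
      exact ⟨by rw [← e3]; exact ha.1, by rw [← e3]; exact ha.2⟩)
    (ρ := ρ * h x₁) (mul_pos hρ (hpos x₁))
  filter_upwards [hcore] with k hcore
  obtain ⟨y₁, T₁, y₂, T₂, hT₁, hT₂, d₁, d₂, e₁, e₂, hdis⟩ := hcore
  -- the periodic orbits of `X`
  have hmk : ∀ y T, 0 < T → |T - ∫ r in (0:ℝ)..(τ k y), h (Φ y r)| ≤ ρ * h x₁ → Fl y T = y →
      ∃ s, IsPeriodicOrbit (fun x => h x • R x) (Φ y) s ∧ |s - τ k y| ≤ ρ := by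
    intro y T hT hd hy
    obtain ⟨s, hs, hs'⟩ := (htc y).2 T hT
    have hxs : Φ y s = y := by rw [(htc y).1, hs', hy]
    refine ⟨s, ⟨hs, hΦ.integral y, fun t => ?_⟩, ?_⟩
    · rw [add_comm, flow_add hXs hΦ.zero hΦ.integral, hxs]
    · have h1 := abs_sub_le_integral (g := fun r => h (Φ y r))
        (hh.continuous.comp (hΦ.integral y).continuous) (fun r => hhm _) (τ k y) s
      rw [hs'] at h1
      have h2 := h1.trans hd
      rw [mul_comm] at h2
      exact le_of_mul_le_mul_right h2 (hpos x₁)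
  obtain ⟨s₁, h₁, h₁'⟩ := hmk y₁ T₁ hT₁ d₁ e₁
  obtain ⟨s₂, h₂, h₂'⟩ := hmk y₂ T₂ hT₂ d₂ e₂
  refine ⟨y₁, y₂, s₁, s₂, h₁, h₂, ?_, h₁', h₂'⟩
  rw [Set.disjoint_left]
  rintro _ ⟨u, rfl⟩ ⟨v, hv⟩
  rw [(htc y₁).1, (htc y₂).1] at hv
  exact hdis _ _ hv.symm

end Pool.Agent.H754.Reeb
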