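import Pool.Agent.H754.Reeb.Growth

/-!
A finite-time criterion for closed orbits of flows of contact type.
-/

open scoped Topology ContDiff Manifold
open Set Filter Pool.Agent.H826R2 Pool.Agent.H826R2.WStmt Pool.Agent.W671.RStmt

noncomputable section

namespace Pool.Agent.H754.Reeb

universe u v

variable {E : Type u} [NormedAddCommGroup E] [NormedSpace ℝ E] [FiniteDimensional ℝ E]
  {M : Type v} [TopologicalSpace M] [ChartedSpace E M] [IsManifold 𝓘(ℝ, E) ∞ M] {n : ℕ}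

theorem criterion [T2Space M] [CompactSpace M] [Nonempty M] (hdim : 1 < Module.finrank ℝ E)
    {α : M → Cov E} (hα : WStmt.IsContact α) {R : M → E} (hR : WStmt.IsReeb α R)
    {h : M → ℝ} (hh : ContMDiff 𝓘(ℝ, E) 𝓘(ℝ, ℝ) ∞ h) (hpos : ∀ x, 0 < h x)
    {Φ : M → ℝ → M} (hΦ : IsFlow (fun x => h x • R x) Φ) {e : M → EuclideanSpace ℝ (Fin n)}
    (he : IsInjImmersion (E := E) e) {ρ : ℝ} (hρ : 0 < ρ) :
    (∃ c : ℝ, 0 < c ∧ ∀ (C : ℝ), 1 ≤ C → ∀ (t t' : ℝ), 1 ≤ t' - t →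
      ∀ (G G' : M → EuclideanSpace ℝ (Fin n) →L[ℝ] EuclideanSpace ℝ (Fin n)),
      Induces (E := E) e (fun x => Φ x t) G → Induces (E := E) e (fun x => Φ x t') G' →
      (∀ x, ‖G x‖ ≤ C) →
      (∀ x, ‖e (Φ x t') - e (Φ x t)‖ ≤ c / C ^ 2 ∧ ‖G' x - G x‖ ≤ c / C ^ 2) →
      TwoOrbitsNear (fun x => h x • R x) (t' - t) ρ) ∧
    (∀ (C : ℝ) (μ : ℝ → ℝ), 1 ≤ C → Tendsto μ (𝓝 0) (𝓝 0) → ∃ N : ℕ, ∀ s : Finset ℝ,
      (∀ t ∈ s, C1Bound (E := E) e C μ (fun x => Φ x t)) →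
      (∀ t ∈ s, ∀ t' ∈ s, t ≠ t' → 1 ≤ |t - t'|) → N < s.card →
      ∃ t ∈ s, ∃ t' ∈ s, 1 ≤ t' - t ∧ TwoOrbitsNear (fun x => h x • R x) (t' - t) ρ) ∧
    ∀ a : ℝ, 0 < a → ∃ K : ℕ, ∀ C : ℝ, 1 ≤ C → ∀ s : Finset ℝ,
      (∀ t ∈ s, C1Bound (E := E) e C (fun r => C * r ^ a) (fun x => Φ x t)) →
      (∀ t ∈ s, ∀ t' ∈ s, t ≠ t' → 1 ≤ |t - t'|) → Real.exp (K * C ^ K) < s.card →
      ∃ t ∈ s, ∃ t' ∈ s, 1 ≤ t' - t ∧ TwoOrbitsNear (fun x => h x • R x) (t' - t) ρ := by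
  obtain ⟨c, hc, hsep⟩ := separation hdim hα hR hh hpos hΦ he hρ
  have hsep' : ∀ (C : ℝ), 1 ≤ C → ∀ s : Finset ℝ,
      (¬ ∃ t ∈ s, ∃ t' ∈ s, 1 ≤ t' - t ∧ TwoOrbitsNear (fun x => h x • R x) (t' - t) ρ) →
      ∀ t ∈ s, ∀ t' ∈ s, 1 ≤ t' - t →
        ∀ (G G' : M → EuclideanSpace ℝ (Fin n) →L[ℝ] EuclideanSpace ℝ (Fin n)),
        Induces (E := E) e (fun x => Φ x t) G → Induces (E := E) e (fun x => Φ x t') G' →
        (∀ x, ‖G x‖ ≤ C) →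
        ∃ x, c / C ^ 2 < ‖e (Φ x t') - e (Φ x t)‖ ∨ c / C ^ 2 < ‖G' x - G x‖ := by
    intro C hC s hno t ht t' ht' htt G G' hG hG' hGC
    by_contra hcon
    push Not at hcon
    exact hno ⟨t, ht, t', ht', htt, hsep C hC t t' htt G G' hG hG' hGC hcon⟩
  refine ⟨⟨c, hc, hsep⟩, fun C μ hC hμ => ?_, fun a ha => ?_⟩
  · obtain ⟨N, hN⟩ := packing' (Φ := Φ) he hc hC hμ
    refine ⟨N, fun s hs hgap hcard => ?_⟩
    by_contra hno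
    exact absurd (hN s hs hgap (hsep' C hC s hno)) (not_le.2 hcard)
  · obtain ⟨K, hK⟩ := packing (Φ := Φ) he hc ha
    refine ⟨K, fun C hC s hs hgap hcard => ?_⟩
    by_contra hno
    exact absurd (hK C hC s hs hgap (hsep' C hC s hno)) (not_le.2 hcard)

end Pool.Agent.H754.Reeb
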