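import Mathlib
import Pool.Graph.R_seed8.W671.WU11

/-!
Definitions: two closed orbits with given periods, derivatives of a map of an embedded manifold, bounds
of its `C¹` norm and of the modulus of continuity of its derivative.
-/

open scoped Topology ContDiff Manifold
open Set Pool.Agent.H826R2.WStmt

noncomputable section

namespace Pool.Agent.H754.Reeb

variable {E : Type*} [NormedAddCommGroup E] [NormedSpace ℝ E]
  {M : Type*} [TopologicalSpace M] [ChartedSpace E M]
  {F : Type*} [NormedAddCommGroup F] [NormedSpace ℝ F]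

/-- There are two periodic orbits of the vector field `X` with disjoint images and with periods at
distance at most `ρ` from `T`. -/
def TwoOrbitsNear (X : M → E) (T ρ : ℝ) : Prop :=
  ∃ (c₁ c₂ : ℝ → M) (T₁ T₂ : ℝ), IsPeriodicOrbit X c₁ T₁ ∧ IsPeriodicOrbit X c₂ T₂ ∧
    Disjoint (range c₁) (range c₂) ∧ |T₁ - T| ≤ ρ ∧ |T₂ - T| ≤ ρ

/-- The linear maps `G x` of the ambient space `F` induce the derivative of `f : M → M`, where `M` is
embedded in `F` by `e`: `De ∘ Df = G x ∘ De` at the point `x`. -/
def Induces (e : M → F) (f : M → M) (G : M → F →L[ℝ] F) : Prop :=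
  ∀ (x : M) (v : E), D (E := E) (E' := F) e (f x) (D (E := E) (E' := E) f x v) =
    G x (D (E := E) (E' := F) e x v)

/-- The `C¹` norm of the map `f : M → M`, measured in the embedding `e`, is at most `C`, and its
derivative has the modulus of continuity `μ`: `f` is Lipschitz with constant `C`, and its derivative is
induced by linear maps `G x` of norm at most `C` with `‖G x - G y‖ ≤ μ (‖e x - e y‖)`. -/
def C1Bound (e : M → F) (C : ℝ) (μ : ℝ → ℝ) (f : M → M) : Prop :=
  (∀ x y, ‖e (f x) - e (f y)‖ ≤ C * ‖e x - e y‖) ∧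
    ∃ G : M → F →L[ℝ] F, Induces (E := E) e f G ∧
      (∀ x, ‖G x‖ ≤ C) ∧ ∀ x y, ‖G x - G y‖ ≤ μ ‖e x - e y‖

end Pool.Agent.H754.Reeb
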