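import Pool.Agent.H754.Reeb.Bounds
import Pool.Agent.H754.Reeb.Defs
import Pool.Agent.H754.Reeb.Core

/-!
If a time map of a flow of contact type is `C¹`-close to the identity, then there are two closed orbits
with periods close to this time. The time maps preserve the exterior derivative of the contact form.
-/

open scoped Topology ContDiff Manifold
open Set Filter Pool.Agent.Helper186 Pool.Agent.H826R2 Pool.Agent.H826R2.Wein Pool.Agent.W671.WU
  Pool.Agent.H826R2.WStmt Pool.Agent.W671.RStmt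

noncomputable section

set_option linter.unusedSectionVars false

namespace Pool.Agent.H754.Reeb

universe u

variable {E : Type u} [NormedAddCommGroup E] [NormedSpace ℝ E] [FiniteDimensional ℝ E]
  {M : Type*} [TopologicalSpace M] [ChartedSpace E M]
  {F : Type*} [NormedAddCommGroup F] [NormedSpace ℝ F]

variable [IsManifold 𝓘(ℝ, E) ∞ M]

/-- If the time `T` map of a flow of contact type is `C¹`-close to the identity, then there are two
closed orbits with periods close to `T`. -/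
theorem gap [T2Space M] [CompactSpace M] [Nonempty M] (hdim : 1 < Module.finrank ℝ E)
    {α : M → Cov E} (hα : WStmt.IsContact α) {R : M → E} (hR : WStmt.IsReeb α R)
    {h : M → ℝ} (hh : ContMDiff 𝓘(ℝ, E) 𝓘(ℝ, ℝ) ∞ h) (hpos : ∀ x, 0 < h x)
    {Φ : M → ℝ → M} (hΦ : IsFlow (fun x => h x • R x) Φ) {e : M → F}
    (he : IsInjImmersion (E := E) e) {ρ : ℝ} (hρ : 0 < ρ) :
    ∃ δ : ℝ, 0 < δ ∧ δ ≤ 1 ∧ ∀ T : ℝ, 1 ≤ T →
      (∀ x, ‖e (Φ x T) - e x‖ ≤ δ) → (∀ (x : M) (v : E),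
        ‖D (E := E) (E' := F) e (Φ x T) (D (E := E) (E' := E) (fun y => Φ y T) x v) -
          D (E := E) (E' := F) e x v‖ ≤ δ * ‖D (E := E) (E' := F) e x v‖) →
      TwoOrbitsNear (fun x => h x • R x) T ρ := by
  by_contra hcon
  push Not at hcon
  have h1 : ∀ k : ℕ, ∃ T : ℝ, 1 ≤ T ∧ (∀ x, ‖e (Φ x T) - e x‖ ≤ 1 / ((k : ℝ) + 1)) ∧
      (∀ (x : M) (v : E),
        ‖D (E := E) (E' := F) e (Φ x T) (D (E := E) (E' := E) (fun y => Φ y T) x v) -
          D (E := E) (E' := F) e x v‖ ≤ 1 / ((k : ℝ) + 1) * ‖D (E := E) (E' := F) e x v‖) ∧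
      ¬ TwoOrbitsNear (fun x => h x • R x) T ρ := by
    intro k
    have hk : (0 : ℝ) < 1 / ((k : ℝ) + 1) := Nat.one_div_pos_of_nat
    have hk1 : 1 / ((k : ℝ) + 1) ≤ 1 := by
      rw [div_le_one (by positivity)]
      have : (0 : ℝ) ≤ k := Nat.cast_nonneg k
      linarith
    obtain ⟨T, hT, h2, h3, h4⟩ := hcon _ hk hk1
    exact ⟨T, hT, h2, h3, h4⟩
  choose T hT hc hd hno using h1
  have hrec : Recurrent e (fun x => h x • R x) Φ (fun k _ => T k) := by
    refine ⟨fun k => continuous_const, ⟨1, one_pos, fun k x => hT k⟩, fun ε hε => ?_, ?_⟩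
    · have h0 : Tendsto (fun k : ℕ => 1 / ((k : ℝ) + 1)) atTop (𝓝 0) :=
        tendsto_one_div_add_atTop_nhds_zero_nat
      filter_upwards [h0.eventually (gt_mem_nhds hε)] with k hk x
      exact (hc k x).trans_lt hk
    · refine ⟨2, ?_⟩
      have h0 : Tendsto (fun k : ℕ => 1 / ((k : ℝ) + 1)) atTop (𝓝 0) :=
        tendsto_one_div_add_atTop_nhds_zero_nat
      filter_upwards [h0.eventually (gt_mem_nhds (show (0 : ℝ) < 1 / 2 by norm_num))] with k hk x
      refine ⟨0, fun v => ?_⟩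
      have e0 : (0 : E →L[ℝ] ℝ) v • (h (Φ x (T k)) • R (Φ x (T k))) = 0 := by
        rw [zero_apply, zero_smul]
      change ‖D (E := E) (E' := F) e (Φ x (T k)) (D (E := E) (E' := E) (fun y => Φ y (T k)) x v +
          (0 : E →L[ℝ] ℝ) v • (h (Φ x (T k)) • R (Φ x (T k))))‖ ≤ _ ∧ _ ≤
          2 * ‖D (E := E) (E' := F) e
          (Φ x (T k)) (D (E := E) (E' := E) (fun y => Φ y (T k)) x v +
          (0 : E →L[ℝ] ℝ) v • (h (Φ x (T k)) • R (Φ x (T k)))) + _‖
      rw [e0, add_zero]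
      have h3 := hd k x v
      set a := D (E := E) (E' := F) e x v with ha
      set b := D (E := E) (E' := F) e (Φ x (T k))
        (D (E := E) (E' := E) (fun y => Φ y (T k)) x v) with hb
      have h4 : ‖b - a‖ ≤ 1 / 2 * ‖a‖ := h3.trans
        (mul_le_mul_of_nonneg_right hk.le (norm_nonneg _))
      have h5 : ‖b‖ ≤ ‖a‖ + ‖b - a‖ := by
        have := norm_add_le a (b - a)
        rwa [add_sub_cancel] at this
      have h6 : ‖a‖ + ‖a‖ ≤ ‖b + a‖ + ‖b - a‖ := by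
        have h7 := norm_sub_le (b + a) (b - a)
        have h8 : b + a - (b - a) = a + a := by abel
        rw [h8] at h7
        have h9 : ‖a + a‖ = ‖a‖ + ‖a‖ := by
          rw [← two_smul ℝ a, norm_smul, Real.norm_eq_abs, abs_of_pos two_pos]
          ring
        linarith
      have h7 := norm_nonneg a
      constructor
      · linarith
      · linarith
  obtain ⟨k, y₁, y₂, T₁, T₂, h2, h3, h4, h5, h6⟩ :=
    (periodic_of_recurrent' hdim α hα R hR h hh hpos Φ hΦ e he _ hrec hρ).exists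
  exact hno k ⟨_, _, T₁, T₂, h2, h3, h4, h5, h6⟩

section

/-- the derivative of a composition of time maps -/
lemma D_add {Φ : M → ℝ → M}
    (hs : ContMDiff (𝓘(ℝ, E).prod 𝓘(ℝ, ℝ)) 𝓘(ℝ, E) ∞ (fun p : M × ℝ => Φ p.1 p.2))
    (hadd : ∀ x s t, Φ x (s + t) = Φ (Φ x s) t) (s t : ℝ) (x : M) (v : E) :
    D (E := E) (E' := E) (fun y => Φ y (s + t)) x v =
      D (E := E) (E' := E) (fun y => Φ y t) (Φ x s) (D (E := E) (E' := E) (fun y => Φ y s) x v) := by
  have hst : ∀ t, ContMDiff 𝓘(ℝ, E) 𝓘(ℝ, E) ∞ (fun y => Φ y t) := fun t =>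
    hs.comp (contMDiff_id.prodMk contMDiff_const)
  have h1 : mfderiv 𝓘(ℝ, E) 𝓘(ℝ, E) ((fun y => Φ y t) ∘ fun y => Φ y s) x =
      (mfderiv 𝓘(ℝ, E) 𝓘(ℝ, E) (fun y => Φ y t) (Φ x s)).comp
      (mfderiv 𝓘(ℝ, E) 𝓘(ℝ, E) (fun y => Φ y s) x) :=
    mfderiv_comp _ ((hst t).mdifferentiableAt (by simp)) ((hst s).mdifferentiableAt (by simp))
  have h2 : ((fun y => Φ y t) ∘ fun y => Φ y s) = fun y => Φ y (s + t) := by
    funext y
    exact (hadd y s t).symm
  rw [h2] at h1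
  exact DFunLike.congr_fun h1 v

/-- the time maps of a flow map the vector field to itself -/
lemma D_push {X : M → E} {Φ : M → ℝ → M} (hΦ : IsFlow X Φ)
    (hs : ContMDiff (𝓘(ℝ, E).prod 𝓘(ℝ, ℝ)) 𝓘(ℝ, E) ∞ (fun p : M × ℝ => Φ p.1 p.2))
    (hadd : ∀ x s t, Φ x (s + t) = Φ (Φ x s) t) (s : ℝ) (x : M) :
    D (E := E) (E' := E) (fun y => Φ y s) x (X x) = X (Φ x s) := by
  have hst : ContMDiff 𝓘(ℝ, E) 𝓘(ℝ, E) ∞ (fun y => Φ y s) :=
    hs.comp (contMDiff_id.prodMk contMDiff_const)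
  have h1 := HasMFDerivAt.comp (0 : ℝ) (g := fun y => Φ y s) (f := Φ x)
    ((hst.mdifferentiableAt (by simp)).hasMFDerivAt) (hΦ.integral x 0)
  have h2 := (hΦ.integral x).comp_add s 0
  have h3 : (fun y => Φ y s) ∘ Φ x = Φ x ∘ (· + s) := by
    funext t
    exact (hadd x t s).symm
  have h4 := h1.mfderiv
  rw [h3] at h4
  have h5 := h4.symm.trans h2.mfderiv
  have h6 := DFunLike.congr_fun h5 (1 : ℝ)
  have h7 : D (E := E) (E' := E) (fun y => Φ y s) (Φ x 0) ((1 : ℝ) • X (Φ x 0)) =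
      (1 : ℝ) • X (Φ x (0 + s)) := h6
  rw [one_smul, one_smul, hΦ.zero, zero_add] at h7
  exact h7

/-- the time maps of a flow of contact type -/
lemma typeMap [T2Space M] [CompactSpace M] [Nonempty M] {α : M → Cov E}
    (hα : WStmt.IsContact α) {R : M → E}
    (hR : WStmt.IsReeb α R) {h : M → ℝ} (hh : ContMDiff 𝓘(ℝ, E) 𝓘(ℝ, ℝ) ∞ h)
    (hpos : ∀ x, 0 < h x) {Φ : M → ℝ → M} (hΦ : IsFlow (fun x => h x • R x) Φ) :
    (ContMDiff (𝓘(ℝ, E).prod 𝓘(ℝ, ℝ)) 𝓘(ℝ, E) ∞ (fun p : M × ℝ => Φ p.1 p.2)) ∧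
    (∀ x s t, Φ x (s + t) = Φ (Φ x s) t) ∧
    ∀ s, TypeMap (toForm α) (fun x => (R x : TangentSpace 𝓘(ℝ, E) x)) h (fun x => Φ x s) := by
  have : IsManifold 𝓘(ℝ, E) 1 M := IsManifold.of_le (n := ∞) (by simp)
  have c : Wein.CD (toForm α) (fun x => (R x : TangentSpace 𝓘(ℝ, E) x)) := ⟨hα.toWein, hR.toWein⟩
  have hRs := smooth_reeb c
  have hXs := smooth_smul hh hRs
  have hΦs := contMDiff_flow hXs hΦ.zero hΦ.integral
  have hadd := flow_add hXs hΦ.zero hΦ.integral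
  obtain ⟨x₁, -, hx₁⟩ := (isCompact_univ (X := M)).exists_isMinOn univ_nonempty
    hh.continuous.continuousOn
  have hhm : ∀ x, h x₁ ≤ h x := fun x => hx₁ (mem_univ x)
  choose Fl hF0 hF using fun x : M => Wein.complete_of_compact hRs isCompact_univ
    (fun y hy => absurd (mem_univ y) hy) x
  have hRF := RF.of c hF0 hF
  have htc := fun x => time_change hRs hh (hpos x₁) hhm hΦ.zero hΦ.integral hF0 hF x
  have hk : ContMDiff (𝓘(ℝ, ℝ).prod 𝓘(ℝ, E)) 𝓘(ℝ, ℝ) ∞ (fun p : ℝ × M => h (Φ p.2 p.1)) :=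
    hh.comp (hΦs.comp (contMDiff_snd.prodMk contMDiff_fst))
  have hTs : ∀ s, ContMDiff 𝓘(ℝ, E) 𝓘(ℝ, ℝ) ∞ (fun x => ∫ r in (0:ℝ)..s, h (Φ x r)) := fun s =>
    contMDiff_paramInt hk s
  refine ⟨hΦs, hadd, fun s => ?_⟩
  refine ⟨hΦs.comp (contMDiff_id.prodMk contMDiff_const), fun x u v => ?_, fun x => ?_⟩
  · obtain ⟨b, hb⟩ := deriv_time_change (R := fun x => (R x : TangentSpace 𝓘(ℝ, E) x))
      hRF.smooth hF (hTs s) (s := s) (Φ := Φ) (fun y => (htc y).1 _) x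
    have e2 : Fl x (∫ r in (0:ℝ)..s, h (Φ x r)) = Φ x s := ((htc x).1 _).symm
    set T := ∫ r in (0:ℝ)..s, h (Φ x r) with hT
    have hcto : Cto (toForm α) (fun x => Fl x T) (fun x => Fl x (-T)) :=
      { smooth := hRF.smooth_t T
        smooth' := hRF.smooth_t (-T)
        right := fun x => by
          show Fl (Fl x (-T)) T = x
          rw [← hRF.add, neg_add_cancel, hRF.zero]
        left := fun x => by
          show Fl (Fl x T) (-T) = x
          rw [← hRF.add, add_neg_cancel, hRF.zero]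
        strict := hRF.strict T }
    have e3 := hcto.HB_push c.contact.smooth x u v
    rw [HB_apply, HB_apply, hcto.strict, hcto.strict] at e3
    have e4 : Helper186.extDer 𝓘(ℝ, E) (toForm α) (Fl x T)
        (mfderiv 𝓘(ℝ, E) 𝓘(ℝ, E) (fun x => Fl x T) x u)
        (mfderiv 𝓘(ℝ, E) 𝓘(ℝ, E) (fun x => Fl x T) x v) =
        Helper186.extDer 𝓘(ℝ, E) (toForm α) x u v := by linarith
    rw [← e4]
    have e5 : ∀ (y : M) (a a' : E) (r r' : ℝ),
        Helper186.extDer 𝓘(ℝ, E) (toForm α) y (a + r • R y) (a' + r' • R y) =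
        Helper186.extDer 𝓘(ℝ, E) (toForm α) y a a' := by
      intro y a a' r r'
      have k1 : ∀ w, extDerL 𝓘(ℝ, E) (toForm α) y (R y) w = 0 := fun w => by
        rw [extDerL_apply]
        exact c.reeb.kernel y w
      have k2 : ∀ w, extDerL 𝓘(ℝ, E) (toForm α) y w (R y) = 0 := fun w => by
        rw [extDerL_apply, extDer_antisymm, ← extDerL_apply, k1, neg_zero]
      have k3 : ∀ (L : E →L[ℝ] E →L[ℝ] ℝ) (ρ : E), (∀ w, L ρ w = 0) → (∀ w, L w ρ = 0) →
          L (a + r • ρ) (a' + r' • ρ) = L a a' := by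
        intro L ρ h1 h2
        simp only [map_add, map_smul, add_apply, smul_apply, h1, h2, smul_zero, add_zero]
      have k4 := k3 (show E →L[ℝ] E →L[ℝ] ℝ from extDerL 𝓘(ℝ, E) (toForm α) y) (R y)
        (fun w => k1 w) (fun w => k2 w)
      have k5 : ∀ p q : E, (show E →L[ℝ] E →L[ℝ] ℝ from extDerL 𝓘(ℝ, E) (toForm α) y) p q =
          Helper186.extDer 𝓘(ℝ, E) (toForm α) y p q := fun p q => extDerL_apply (toForm α) y p q
      rw [k5, k5] at k4
      exact k4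
    have e6 : ∀ (z : M), z = Fl x T → ∀ (p q : E),
        p = dm E (fun y => Fl y T) x u + b u • R (Fl x T) →
        q = dm E (fun y => Fl y T) x v + b v • R (Fl x T) →
        Helper186.extDer 𝓘(ℝ, E) (toForm α) z p q = Helper186.extDer 𝓘(ℝ, E) (toForm α) (Fl x T)
          (mfderiv 𝓘(ℝ, E) 𝓘(ℝ, E) (fun x => Fl x T) x u)
          (mfderiv 𝓘(ℝ, E) 𝓘(ℝ, E) (fun x => Fl x T) x v) := by
      rintro _ rfl _ _ rfl rfl
      exact e5 _ _ _ _ _
    exact e6 _ e2.symm _ _ (hb u) (hb v)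
  · have h1 := D_push hΦ hΦs hadd s x
    have h2 : D (E := E) (E' := E) (fun y => Φ y s) x (h x • R x) =
        h x • D (E := E) (E' := E) (fun y => Φ y s) x (R x) := map_smul _ _ _
    exact h2.symm.trans h1

end

end Pool.Agent.H754.Reeb
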