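import Mathlib

/-!
The number of separated, uniformly Hölder continuous maps is bounded.
-/

open Set

noncomputable section

namespace Pool.Agent.H754.Reeb

/-- Quantisation of a finite-dimensional normed space. -/
theorem exists_quant (W : Type*) [NormedAddCommGroup W] [NormedSpace ℝ W]
    [FiniteDimensional ℝ W] :
    ∃ (m : ℕ) (κ : ℝ), 0 < κ ∧ ∀ ρ : ℝ, 0 < ρ → ∃ q : W → Fin m → ℤ,
      (∀ x y, q x = q y → ‖x - y‖ ≤ ρ) ∧ ∀ x i, |((q x i : ℤ) : ℝ)| ≤ κ * ‖x‖ / ρ + 1 := by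
  let b : W ≃L[ℝ] (Fin (Module.finrank ℝ W) → ℝ) := ContinuousLinearEquiv.ofFinrankEq (by simp)
  let c₁ : ℝ := ‖(b : W →L[ℝ] (Fin (Module.finrank ℝ W) → ℝ))‖
  let c₂ : ℝ := ‖(b.symm : (Fin (Module.finrank ℝ W) → ℝ) →L[ℝ] W)‖ + 1
  have hc₁ : 0 ≤ c₁ := norm_nonneg _
  have hc₂ : 0 < c₂ := by positivity
  refine ⟨Module.finrank ℝ W, c₁ * c₂ + 1, by positivity, fun ρ hρ =>
    ⟨fun x i => ⌊b x i * (c₂ / ρ)⌋, fun x y hxy => ?_, fun x i => ?_⟩⟩
  · have h1 : ‖b x - b y‖ ≤ ρ / c₂ := by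
      refine (pi_norm_le_iff_of_nonneg (by positivity)).2 fun i => ?_
      have h2 := Int.abs_sub_lt_one_of_floor_eq_floor (congrFun hxy i)
      rw [← sub_mul, abs_mul, abs_of_pos (div_pos hc₂ hρ)] at h2
      rw [Pi.sub_apply, Real.norm_eq_abs, le_div_iff₀ hc₂]
      have h3 : |b x i - b y i| * (c₂ / ρ) = |b x i - b y i| * c₂ / ρ := by ring
      rw [h3, div_lt_one hρ] at h2
      exact h2.le
    have h4 : x - y = b.symm (b x - b y) := by
      rw [map_sub, b.symm_apply_apply, b.symm_apply_apply]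
    rw [h4]
    have h5 := (b.symm : (Fin (Module.finrank ℝ W) → ℝ) →L[ℝ] W).le_opNorm (b x - b y)
    refine h5.trans ?_
    have h6 : ‖(b.symm : (Fin (Module.finrank ℝ W) → ℝ) →L[ℝ] W)‖ ≤ c₂ := by
      change _ ≤ _ + 1
      linarith
    calc _ ≤ c₂ * (ρ / c₂) := mul_le_mul h6 h1 (norm_nonneg _) hc₂.le
      _ = ρ := by field_simp
  · have h1 : |b x i| ≤ c₁ * ‖x‖ :=
      (norm_le_pi_norm (b x) i).trans
        ((b : W →L[ℝ] (Fin (Module.finrank ℝ W) → ℝ)).le_opNorm x)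
    have h2 : |b x i * (c₂ / ρ)| ≤ (c₁ * c₂ + 1) * ‖x‖ / ρ := by
      rw [abs_mul, abs_of_pos (div_pos hc₂ hρ)]
      calc _ ≤ c₁ * ‖x‖ * (c₂ / ρ) := mul_le_mul_of_nonneg_right h1 (div_pos hc₂ hρ).le
        _ = (c₁ * c₂) * ‖x‖ / ρ := by ring
        _ ≤ _ := by
          refine div_le_div_of_nonneg_right (mul_le_mul_of_nonneg_right ?_ (norm_nonneg _)) hρ.le
          linarith
    have h3 : |((⌊b x i * (c₂ / ρ)⌋ : ℤ) : ℝ)| ≤ |b x i * (c₂ / ρ)| + 1 := by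
      have h4 := Int.floor_le (b x i * (c₂ / ρ))
      have h5 := Int.lt_floor_add_one (b x i * (c₂ / ρ))
      rw [abs_le]
      constructor
      · have := neg_abs_le (b x i * (c₂ / ρ))
        linarith
      · have := le_abs_self (b x i * (c₂ / ρ))
        linarith
    linarith

universe v

/-- **Packing.** -/
theorem pack (V W : Type*) [NormedAddCommGroup V] [NormedSpace ℝ V] [FiniteDimensional ℝ V]
    [NormedAddCommGroup W] [NormedSpace ℝ W] [FiniteDimensional ℝ W] :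
    ∃ (k m : ℕ) (κ : ℝ), 0 < κ ∧ ∀ (X : Type v) (T : Type) (_ : Nonempty X) (e : X → V) (B R r η : ℝ),
      0 < r → 0 < η → (∀ x, ‖e x‖ ≤ B) → ∀ (s : Finset T) (Ψ : T → X → W),
      (∀ t ∈ s, ∀ x, ‖Ψ t x‖ ≤ R) →
      (∀ t ∈ s, ∀ x y, ‖e x - e y‖ ≤ r → ‖Ψ t x - Ψ t y‖ ≤ η / 4) →
      (∀ t ∈ s, ∀ t' ∈ s, t ≠ t' → ∃ x, η < ‖Ψ t x - Ψ t' x‖) → ∀ L L' : ℕ,
      κ * B / r + 1 ≤ L' → κ * R / η + 1 ≤ L →
      s.card ≤ ((2 * L + 1) ^ m) ^ ((2 * L' + 1) ^ k) := by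
  obtain ⟨k, κ₁, hκ₁, hV⟩ := exists_quant V
  obtain ⟨m, κ₂, hκ₂, hW⟩ := exists_quant W
  refine ⟨k, m, κ₁ + 2 * κ₂, by positivity, ?_⟩
  intro X T _ e B R r η hr hη hB s Ψ hR hΨ hsep L L' hL' hL
  classical
  obtain ⟨q, hq, hqb⟩ := hV r hr
  obtain ⟨p, hp, hpb⟩ := hW (η / 2) (by positivity)
  -- the cells
  have hbox : ∀ x i, q (e x) i ∈ Finset.Icc (-(L' : ℤ)) L' := by
    intro x i
    have h1 := hqb (e x) i
    have h2 : κ₁ * ‖e x‖ / r ≤ (κ₁ + 2 * κ₂) * B / r := by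
      refine div_le_div_of_nonneg_right ?_ hr.le
      have hB0 : 0 ≤ B := (norm_nonneg _).trans (hB x)
      calc κ₁ * ‖e x‖ ≤ κ₁ * B := mul_le_mul_of_nonneg_left (hB x) hκ₁.le
        _ ≤ (κ₁ + 2 * κ₂) * B := mul_le_mul_of_nonneg_right (by linarith) hB0
    have h3 : |((q (e x) i : ℤ) : ℝ)| ≤ L' := h1.trans (by linarith)
    rw [← Int.cast_abs] at h3
    have h4 : |q (e x) i| ≤ (L' : ℤ) := by exact_mod_cast h3
    rw [Finset.mem_Icc]
    exact abs_le.1 h4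
  have hbox' : ∀ t ∈ s, ∀ x i, p (Ψ t x) i ∈ Finset.Icc (-(L : ℤ)) L := by
    intro t ht x i
    have h1 := hpb (Ψ t x) i
    have h2 : κ₂ * ‖Ψ t x‖ / (η / 2) ≤ (κ₁ + 2 * κ₂) * R / η := by
      have hR0 : 0 ≤ R := (norm_nonneg _).trans (hR t ht x)
      have h3 : κ₂ * ‖Ψ t x‖ / (η / 2) = 2 * κ₂ * ‖Ψ t x‖ / η := by
        field_simp
      rw [h3]
      refine div_le_div_of_nonneg_right ?_ hη.le
      calc 2 * κ₂ * ‖Ψ t x‖ ≤ 2 * κ₂ * R := mul_le_mul_of_nonneg_left (hR t ht x) (by positivity)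
        _ ≤ (κ₁ + 2 * κ₂) * R := mul_le_mul_of_nonneg_right (by linarith) hR0
    have h3 : |((p (Ψ t x) i : ℤ) : ℝ)| ≤ L := h1.trans (by linarith)
    rw [← Int.cast_abs] at h3
    have h4 : |p (Ψ t x) i| ≤ (L : ℤ) := by exact_mod_cast h3
    rw [Finset.mem_Icc]
    exact abs_le.1 h4
  -- representatives
  have hrep : ∀ z : Fin k → ℤ, ∃ x : X, (∃ y, q (e y) = z) → q (e x) = z := by
    intro z
    by_cases h : ∃ y, q (e y) = z
    · obtain ⟨y, hy⟩ := h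
      exact ⟨y, fun _ => hy⟩
    · exact ⟨Classical.arbitrary X, fun h' => absurd h' h⟩
  choose rep hrep using hrep
  let code : s → ((Fin k → Finset.Icc (-(L' : ℤ)) L') → (Fin m → Finset.Icc (-(L : ℤ)) L)) :=
    fun t z i => ⟨p (Ψ t (rep fun j => z j)) i, hbox' t t.2 _ i⟩
  have hinj : Function.Injective code := by
    intro t t' htt
    by_contra hne
    have hne' : (t : T) ≠ t' := fun h => hne (Subtype.ext h)
    obtain ⟨x, hx⟩ := hsep t t.2 t' t'.2 hne'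
    let z : Fin k → Finset.Icc (-(L' : ℤ)) L' := fun j => ⟨q (e x) j, hbox x j⟩
    have hz : (fun j => (z j : ℤ)) = q (e x) := rfl
    have h1 : q (e (rep (q (e x)))) = q (e x) := hrep _ ⟨x, rfl⟩
    have h2 : ‖e x - e (rep (q (e x)))‖ ≤ r := hq _ _ h1.symm
    have h3 : p (Ψ t (rep (q (e x)))) = p (Ψ t' (rep (q (e x)))) := by
      funext i
      have h4 := congrFun (congrFun htt z) i
      have h5 := congrArg Subtype.val h4
      exact h5
    have h4 := hp _ _ h3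
    have h5 := hΨ t t.2 _ _ h2
    have h6 := hΨ t' t'.2 _ _ h2
    rw [norm_sub_rev] at h6
    have h7 : Ψ t x - Ψ t' x = (Ψ t x - Ψ t (rep (q (e x)))) +
        (Ψ t (rep (q (e x))) - Ψ t' (rep (q (e x)))) +
        (Ψ t' (rep (q (e x))) - Ψ t' x) := by abel
    have h8 := norm_add₃_le (a := Ψ t x - Ψ t (rep (q (e x))))
      (b := Ψ t (rep (q (e x))) - Ψ t' (rep (q (e x)))) (c := Ψ t' (rep (q (e x))) - Ψ t' x)
    rw [← h7] at h8
    linarith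
  have h := Fintype.card_le_of_injective code hinj
  have hcard : ∀ N : ℕ, (Finset.Icc (-(N : ℤ)) N).card = 2 * N + 1 := by
    intro N
    rw [Int.card_Icc]
    omega
  rw [Fintype.card_coe, Fintype.card_fun, Fintype.card_fun, Fintype.card_fun, Fintype.card_coe,
    Fintype.card_coe, Fintype.card_fin, Fintype.card_fin, hcard, hcard] at h
  exact h

end Pool.Agent.H754.Reeb
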