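import Pool.Agent.H754.Reeb.Sep
import Pool.Agent.H754.Reeb.Pack

/-!
The number of time maps with bounded norm of a flow whose time maps are separated.
-/

open scoped Topology ContDiff Manifold
open Set Filter Pool.Agent.Helper186 Pool.Agent.H826R2 Pool.Agent.H826R2.Wein Pool.Agent.W671.WU
  Pool.Agent.H826R2.WStmt Pool.Agent.W671.RStmt

noncomputable section

set_option linter.unusedSectionVars false

namespace Pool.Agent.H754.Reeb

universe u v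

/-- the final estimate -/
lemma estimate {m k p : ℕ} {κ B c : ℝ} (hκ : 0 < κ) (hB : 0 ≤ B) (hc : 0 < c) :
    ∃ K : ℕ, ∀ C : ℝ, 1 ≤ C → ∀ (L L' N : ℕ),
      (L' : ℝ) ≤ κ * B / (c / (4 * C ^ 3)) ^ p + 2 →
      (L : ℝ) ≤ κ * ((B + 1) * C) / (c / C ^ 2) + 2 →
      N ≤ ((2 * L + 1) ^ m) ^ ((2 * L' + 1) ^ k) → (N : ℝ) ≤ Real.exp (K * C ^ K) := by
  set Q₁ : ℝ := κ * B * (4 / c) ^ p + 2 with hQ₁
  set Q₂ : ℝ := κ * (B + 1) / c + 2 with hQ₂
  have hQ₁0 : 0 ≤ Q₁ := by positivity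
  have hQ₂0 : 0 ≤ Q₂ := by positivity
  obtain ⟨K₁, hK₁⟩ := exists_nat_ge ((m : ℝ) * (2 * Q₂ + 1) * (2 * Q₁ + 1) ^ k)
  refine ⟨max K₁ (3 + 3 * p * k), fun C hC L L' N hL' hL hN => ?_⟩
  have hC0 : 0 < C := by linarith
  have h1 : (L' : ℝ) ≤ Q₁ * (C ^ (3 * p)) := by
    have e1 : κ * B / (c / (4 * C ^ 3)) ^ p = κ * B * (4 / c) ^ p * C ^ (3 * p) := by
      rw [div_pow, div_pow, mul_pow, ← pow_mul]
      field_simp
    have e2 : (1 : ℝ) ≤ C ^ (3 * p) := one_le_pow₀ hC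
    rw [e1] at hL'
    calc (L' : ℝ) ≤ κ * B * (4 / c) ^ p * C ^ (3 * p) + 2 * 1 := by linarith
      _ ≤ κ * B * (4 / c) ^ p * C ^ (3 * p) + 2 * C ^ (3 * p) := by linarith
      _ = _ := by rw [hQ₁]; ring
  have h2 : (L : ℝ) ≤ Q₂ * C ^ 3 := by
    have e1 : κ * ((B + 1) * C) / (c / C ^ 2) = κ * (B + 1) / c * C ^ 3 := by
      field_simp
    have e2 : (1 : ℝ) ≤ C ^ 3 := one_le_pow₀ hC
    rw [e1] at hL
    calc (L : ℝ) ≤ κ * (B + 1) / c * C ^ 3 + 2 * 1 := by linarith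
      _ ≤ κ * (B + 1) / c * C ^ 3 + 2 * C ^ 3 := by linarith
      _ = _ := by rw [hQ₂]; ring
  have h3 : (2 * (L : ℝ) + 1) ≤ (2 * Q₂ + 1) * C ^ 3 := by
    have e2 : (1 : ℝ) ≤ C ^ 3 := one_le_pow₀ hC
    linarith [h2]
  have h4 : (2 * (L' : ℝ) + 1) ≤ (2 * Q₁ + 1) * C ^ (3 * p) := by
    have e2 : (1 : ℝ) ≤ C ^ (3 * p) := one_le_pow₀ hC
    linarith [h1]
  have h5 : (N : ℝ) ≤ ((2 * (L : ℝ) + 1) ^ m) ^ ((2 * L' + 1) ^ k) := by
    have : (N : ℝ) ≤ (((2 * L + 1) ^ m) ^ ((2 * L' + 1) ^ k) : ℕ) := by exact_mod_cast hN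
    push_cast at this
    exact this
  have h6 : (2 * (L : ℝ) + 1) ≤ Real.exp (2 * (L : ℝ) + 1) := by
    have := Real.add_one_le_exp (2 * (L : ℝ) + 1)
    linarith
  have h7 : ((2 * (L : ℝ) + 1) ^ m) ^ ((2 * L' + 1) ^ k) ≤
      Real.exp (((2 * L' + 1) ^ k : ℕ) * (m * (2 * (L : ℝ) + 1))) := by
    rw [Real.exp_nat_mul, Real.exp_nat_mul]
    have h0 : (0 : ℝ) ≤ 2 * (L : ℝ) + 1 := by positivity
    exact pow_le_pow_left₀ (pow_nonneg h0 _) (pow_le_pow_left₀ h0 h6 _) _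
  refine h5.trans (h7.trans (Real.exp_le_exp.2 ?_))
  have h8 : (((2 * L' + 1) ^ k : ℕ) : ℝ) ≤ ((2 * Q₁ + 1) * C ^ (3 * p)) ^ k := by
    push_cast
    exact pow_le_pow_left₀ (by positivity) h4 _
  have h9 : (m : ℝ) * (2 * (L : ℝ) + 1) ≤ m * ((2 * Q₂ + 1) * C ^ 3) :=
    mul_le_mul_of_nonneg_left h3 (Nat.cast_nonneg m)
  have h10 : (((2 * L' + 1) ^ k : ℕ) : ℝ) * (m * (2 * (L : ℝ) + 1)) ≤
      ((2 * Q₁ + 1) * C ^ (3 * p)) ^ k * (m * ((2 * Q₂ + 1) * C ^ 3)) :=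
    mul_le_mul h8 h9 (by positivity) (by positivity)
  refine h10.trans ?_
  have h11 : ((2 * Q₁ + 1) * C ^ (3 * p)) ^ k * (m * ((2 * Q₂ + 1) * C ^ 3)) =
      ((m : ℝ) * (2 * Q₂ + 1) * (2 * Q₁ + 1) ^ k) * C ^ (3 + 3 * p * k) := by
    rw [mul_pow, ← pow_mul, pow_add]
    ring
  rw [h11]
  have h12 : ((K₁ : ℕ) : ℝ) ≤ ((max K₁ (3 + 3 * p * k) : ℕ) : ℝ) := by
    exact_mod_cast le_max_left _ _
  refine mul_le_mul (hK₁.trans h12) ?_ (by positivity) (by positivity)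
  exact pow_le_pow_right₀ hC (le_max_right _ _)

variable {E : Type u} [NormedAddCommGroup E] [NormedSpace ℝ E] [FiniteDimensional ℝ E]
  {M : Type v} [TopologicalSpace M] [ChartedSpace E M] [IsManifold 𝓘(ℝ, E) ∞ M] {n : ℕ}

/-- **Packing.** A separated flow has few times with bounded norm. -/
theorem packing [CompactSpace M] [Nonempty M]
    {Φ : M → ℝ → M} {e : M → EuclideanSpace ℝ (Fin n)}
    (he : IsInjImmersion (E := E) e) {c : ℝ} (hc : 0 < c)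
    {a : ℝ} (ha : 0 < a) :
    ∃ K : ℕ, ∀ C : ℝ, 1 ≤ C → ∀ s : Finset ℝ,
      (∀ t ∈ s, C1Bound (E := E) e C (fun r => C * r ^ a) (fun x => Φ x t)) →
      (∀ t ∈ s, ∀ t' ∈ s, t ≠ t' → 1 ≤ |t - t'|) →
      (∀ t ∈ s, ∀ t' ∈ s, 1 ≤ t' - t →
        ∀ (G G' : M → EuclideanSpace ℝ (Fin n) →L[ℝ] EuclideanSpace ℝ (Fin n)),
        Induces (E := E) e (fun x => Φ x t) G → Induces (E := E) e (fun x => Φ x t') G' →
        (∀ x, ‖G x‖ ≤ C) →
        ∃ x, c / C ^ 2 < ‖e (Φ x t') - e (Φ x t)‖ ∨ c / C ^ 2 < ‖G' x - G x‖) →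
      (s.card : ℝ) ≤ Real.exp (K * C ^ K) := by
  obtain ⟨B, hB⟩ := (isCompact_univ (X := M)).exists_bound_of_continuousOn (f := e)
    he.smooth.continuous.continuousOn
  have hB0 : 0 ≤ B := (norm_nonneg _).trans (hB (Classical.arbitrary M) (mem_univ _))
  obtain ⟨k, m, κ, hκ, hpack⟩ := pack.{v} (EuclideanSpace ℝ (Fin n))
    (EuclideanSpace ℝ (Fin n) × (EuclideanSpace ℝ (Fin n) →L[ℝ] EuclideanSpace ℝ (Fin n)))
  obtain ⟨p, hp⟩ : ∃ p : ℕ, 1 ≤ p ∧ 1 ≤ (p : ℝ) * a := by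
    obtain ⟨p, hp⟩ := exists_nat_ge (1 / a)
    refine ⟨max p 1, le_max_right _ _, ?_⟩
    have h1 : (p : ℝ) ≤ ((max p 1 : ℕ) : ℝ) := by exact_mod_cast le_max_left _ _
    rw [div_le_iff₀ ha] at hp
    exact hp.trans (mul_le_mul_of_nonneg_right h1 ha.le)
  set c₀ : ℝ := min c 1 with hc₀
  have hc₀0 : 0 < c₀ := lt_min hc one_pos
  have hc₀1 : c₀ ≤ 1 := min_le_right _ _
  have hc₀c : c₀ ≤ c := min_le_left _ _
  obtain ⟨K, hK⟩ := estimate (m := m) (k := k) (p := p) hκ hB0 hc₀0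
  refine ⟨K, fun C hC s hs hgap hsep => ?_⟩
  have hC0 : 0 < C := by linarith
  set w : ℝ := c₀ / (4 * C ^ 3) with hw
  have hw0 : 0 < w := by positivity
  have hw1 : w ≤ 1 := by
    rw [hw, div_le_one (by positivity)]
    have h1 : (1 : ℝ) ≤ C ^ 3 := one_le_pow₀ hC
    linarith
  set η : ℝ := c₀ / C ^ 2 with hη
  have hη0 : 0 < η := by positivity
  have hηc : η ≤ c / C ^ 2 := div_le_div_of_nonneg_right hc₀c (by positivity)
  have hCw : C * w = η / 4 := by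
    rw [hw, hη]
    field_simp
  have hr0 : 0 < w ^ p := pow_pos hw0 p
  have hrw : w ^ p ≤ w := by
    calc w ^ p ≤ w ^ 1 := pow_le_pow_of_le_one hw0.le hw1 hp.1
      _ = w := pow_one w
  have hra : (w ^ p) ^ a ≤ w := by
    rw [← Real.rpow_natCast, ← Real.rpow_mul hw0.le]
    calc w ^ ((p : ℝ) * a) ≤ w ^ (1 : ℝ) := Real.rpow_le_rpow_of_exponent_ge hw0 hw1 hp.2
      _ = w := Real.rpow_one w
  choose! G hG using fun t ht => (hs t ht).2
  obtain ⟨L, hL⟩ : ∃ L : ℕ, κ * ((B + 1) * C) / η + 1 ≤ L ∧ (L : ℝ) ≤ κ * ((B + 1) * C) / η + 2 := by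
    refine ⟨⌈κ * ((B + 1) * C) / η + 1⌉₊, Nat.le_ceil _, ?_⟩
    have := Nat.ceil_lt_add_one (a := κ * ((B + 1) * C) / η + 1) (by positivity)
    linarith
  obtain ⟨L', hL'⟩ : ∃ L' : ℕ, κ * B / w ^ p + 1 ≤ L' ∧ (L' : ℝ) ≤ κ * B / w ^ p + 2 := by
    refine ⟨⌈κ * B / w ^ p + 1⌉₊, Nat.le_ceil _, ?_⟩
    have := Nat.ceil_lt_add_one (a := κ * B / w ^ p + 1) (by positivity)
    linarith
  refine hK C hC L L' s.card hL'.2 hL.2 ?_
  refine hpack M ℝ inferInstance e B ((B + 1) * C) (w ^ p) η hr0 hη0 (fun x => hB x (mem_univ x)) s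
    (fun t x => (e (Φ x t), G t x)) (fun t ht x => ?_) (fun t ht x y hxy => ?_)
    (fun t ht t' ht' hne => ?_) L L' hL'.1 hL.1
  · refine norm_prod_le_iff.2 ⟨?_, ?_⟩
    · refine (hB _ (mem_univ _)).trans ?_
      have h1 : B * 1 ≤ (B + 1) * C := mul_le_mul (by linarith) hC zero_le_one (by linarith)
      linarith
    · refine ((hG t ht).2.1 x).trans ?_
      have h1 : 1 * C ≤ (B + 1) * C := mul_le_mul_of_nonneg_right (by linarith) hC0.le
      linarith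
  · rw [Prod.mk_sub_mk]
    refine norm_prod_le_iff.2 ⟨?_, ?_⟩
    · refine ((hs t ht).1 x y).trans ?_
      rw [← hCw]
      exact mul_le_mul_of_nonneg_left (hxy.trans hrw) hC0.le
    · refine ((hG t ht).2.2 x y).trans ?_
      rw [← hCw]
      exact mul_le_mul_of_nonneg_left
        ((Real.rpow_le_rpow (norm_nonneg _) hxy ha.le).trans hra) hC0.le
  · have main : ∀ t ∈ s, ∀ t' ∈ s, t < t' → ∃ x, η < ‖(e (Φ x t), G t x) - (e (Φ x t'), G t' x)‖ := by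
      intro t ht t' ht' hlt
      have h1 : 1 ≤ t' - t := by
        have h2 := hgap t ht t' ht' hlt.ne
        rw [abs_sub_comm, abs_of_pos (sub_pos.2 hlt)] at h2
        exact h2
      obtain ⟨x, hx⟩ := hsep t ht t' ht' h1 (G t) (G t') (hG t ht).1 (hG t' ht').1 (hG t ht).2.1
      refine ⟨x, ?_⟩
      rw [norm_sub_rev, Prod.mk_sub_mk, Prod.norm_mk]
      rcases hx with hx | hx
      · exact (hηc.trans_lt hx).trans_le (le_max_left _ _)
      · exact (hηc.trans_lt hx).trans_le (le_max_right _ _)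
    rcases lt_or_gt_of_ne hne with h | h
    · exact main t ht t' ht' h
    · obtain ⟨x, hx⟩ := main t' ht' t ht h
      exact ⟨x, by rw [norm_sub_rev]; exact hx⟩

/-- **Packing, general modulus of continuity.** -/
theorem packing' [CompactSpace M] [Nonempty M]
    {Φ : M → ℝ → M} {e : M → EuclideanSpace ℝ (Fin n)}
    (he : IsInjImmersion (E := E) e) {c : ℝ} (hc : 0 < c) {C : ℝ} (hC1 : 1 ≤ C) {μ : ℝ → ℝ}
    (hμ : Tendsto μ (𝓝 0) (𝓝 0)) :
    ∃ N : ℕ, ∀ s : Finset ℝ, (∀ t ∈ s, C1Bound (E := E) e C μ (fun x => Φ x t)) →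
      (∀ t ∈ s, ∀ t' ∈ s, t ≠ t' → 1 ≤ |t - t'|) →
      (∀ t ∈ s, ∀ t' ∈ s, 1 ≤ t' - t →
        ∀ (G G' : M → EuclideanSpace ℝ (Fin n) →L[ℝ] EuclideanSpace ℝ (Fin n)),
        Induces (E := E) e (fun x => Φ x t) G → Induces (E := E) e (fun x => Φ x t') G' →
        (∀ x, ‖G x‖ ≤ C) →
        ∃ x, c / C ^ 2 < ‖e (Φ x t') - e (Φ x t)‖ ∨ c / C ^ 2 < ‖G' x - G x‖) → s.card ≤ N := by
  obtain ⟨B, hB⟩ := (isCompact_univ (X := M)).exists_bound_of_continuousOn (f := e)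
    he.smooth.continuous.continuousOn
  obtain ⟨k, m, κ, hκ, hpack⟩ := pack.{v} (EuclideanSpace ℝ (Fin n))
    (EuclideanSpace ℝ (Fin n) × (EuclideanSpace ℝ (Fin n) →L[ℝ] EuclideanSpace ℝ (Fin n)))
  have hC0 : 0 < C := by linarith
  set η : ℝ := c / C ^ 2 with hη
  have hη0 : 0 < η := by positivity
  obtain ⟨r₀, hr₀, hr₀'⟩ := Metric.tendsto_nhds_nhds.1 hμ (η / 4) (by positivity)
  set r : ℝ := min (r₀ / 2) (η / (4 * C)) with hr
  have hr0 : 0 < r := lt_min (by positivity) (by positivity)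
  have hrC : C * r ≤ η / 4 := by
    calc C * r ≤ C * (η / (4 * C)) := mul_le_mul_of_nonneg_left (min_le_right _ _) hC0.le
      _ = η / 4 := by field_simp
  have hrμ : ∀ s : ℝ, 0 ≤ s → s ≤ r → μ s ≤ η / 4 := by
    intro s hs hsr
    have h1 : dist s 0 < r₀ := by
      rw [Real.dist_eq, sub_zero, abs_of_nonneg hs]
      have h2 : r ≤ r₀ / 2 := min_le_left _ _
      linarith
    have h2 := hr₀' h1
    rw [Real.dist_eq, sub_zero] at h2
    exact (le_abs_self _).trans h2.le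
  obtain ⟨L, hL⟩ := exists_nat_ge (κ * (B + C) / η + 1)
  obtain ⟨L', hL'⟩ := exists_nat_ge (κ * B / r + 1)
  have hB0 : 0 ≤ B := (norm_nonneg _).trans (hB (Classical.arbitrary M) (mem_univ _))
  refine ⟨((2 * L + 1) ^ m) ^ ((2 * L' + 1) ^ k), fun s hs hgap hsep => ?_⟩
  choose! G hG using fun t ht => (hs t ht).2
  refine hpack M ℝ inferInstance e B (B + C) r η hr0 hη0 (fun x => hB x (mem_univ x)) s
    (fun t x => (e (Φ x t), G t x)) (fun t ht x => ?_) (fun t ht x y hxy => ?_)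
    (fun t ht t' ht' hne => ?_) L L' hL' hL
  · refine norm_prod_le_iff.2 ⟨?_, ?_⟩
    · refine (hB _ (mem_univ _)).trans ?_
      linarith
    · refine ((hG t ht).2.1 x).trans ?_
      linarith
  · rw [Prod.mk_sub_mk]
    refine norm_prod_le_iff.2 ⟨?_, ?_⟩
    · refine ((hs t ht).1 x y).trans ?_
      exact (mul_le_mul_of_nonneg_left hxy hC0.le).trans hrC
    · exact ((hG t ht).2.2 x y).trans (hrμ _ (norm_nonneg _) hxy)
  · have main : ∀ t ∈ s, ∀ t' ∈ s, t < t' → ∃ x, η < ‖(e (Φ x t), G t x) - (e (Φ x t'), G t' x)‖ := by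
      intro t ht t' ht' hlt
      have h1 : 1 ≤ t' - t := by
        have h2 := hgap t ht t' ht' hlt.ne
        rw [abs_sub_comm, abs_of_pos (sub_pos.2 hlt)] at h2
        exact h2
      obtain ⟨x, hx⟩ := hsep t ht t' ht' h1 (G t) (G t') (hG t ht).1 (hG t' ht').1 (hG t ht).2.1
      refine ⟨x, ?_⟩
      rw [norm_sub_rev, Prod.mk_sub_mk, Prod.norm_mk]
      rcases hx with hx | hx
      · exact hx.trans_le (le_max_left _ _)
      · exact hx.trans_le (le_max_right _ _)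
    rcases lt_or_gt_of_ne hne with h | h
    · exact main t ht t' ht' h
    · obtain ⟨x, hx⟩ := main t' ht' t ht h
      exact ⟨x, by rw [norm_sub_rev]; exact hx⟩

end Pool.Agent.H754.Reeb
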