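import Pool.Agent.H754.Reeb.Gap

/-!
Closed orbits of a flow of contact type from two time maps which are close to each other in the
`C¹` sense.
-/

open scoped Topology ContDiff Manifold
open Set Filter Pool.Agent.Helper186 Pool.Agent.H826R2 Pool.Agent.H826R2.Wein Pool.Agent.W671.WU
  Pool.Agent.H826R2.WStmt Pool.Agent.W671.RStmt

noncomputable section

set_option linter.unusedSectionVars false

namespace Pool.Agent.H754.Reeb

universe u

variable {E : Type u} [NormedAddCommGroup E] [NormedSpace ℝ E] [FiniteDimensional ℝ E]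
  {M : Type*} [TopologicalSpace M] [ChartedSpace E M] [IsManifold 𝓘(ℝ, E) ∞ M] {n : ℕ}

/-- **Two `C¹`-close time maps.** If the maps at the times `t`, `t'` of a flow of contact type are
closer to each other than `c / C²` in the `C¹` sense, where `C` bounds the derivative at the time `t`,
then there are two closed orbits with periods close to `t' - t`. -/
theorem separation [T2Space M] [CompactSpace M] [Nonempty M] (hdim : 1 < Module.finrank ℝ E)
    {α : M → Cov E} (hα : WStmt.IsContact α) {R : M → E} (hR : WStmt.IsReeb α R)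
    {h : M → ℝ} (hh : ContMDiff 𝓘(ℝ, E) 𝓘(ℝ, ℝ) ∞ h) (hpos : ∀ x, 0 < h x)
    {Φ : M → ℝ → M} (hΦ : IsFlow (fun x => h x • R x) Φ) {e : M → EuclideanSpace ℝ (Fin n)}
    (he : IsInjImmersion (E := E) e) {ρ : ℝ} (hρ : 0 < ρ) :
    ∃ c : ℝ, 0 < c ∧ ∀ (C : ℝ), 1 ≤ C → ∀ (t t' : ℝ), 1 ≤ t' - t →
      ∀ (G G' : M → EuclideanSpace ℝ (Fin n) →L[ℝ] EuclideanSpace ℝ (Fin n)),
      Induces (E := E) e (fun x => Φ x t) G → Induces (E := E) e (fun x => Φ x t') G' →
      (∀ x, ‖G x‖ ≤ C) →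
      (∀ x, ‖e (Φ x t') - e (Φ x t)‖ ≤ c / C ^ 2 ∧ ‖G' x - G x‖ ≤ c / C ^ 2) →
      TwoOrbitsNear (fun x => h x • R x) (t' - t) ρ := by
  obtain ⟨δ, hδ, hδ1, hgap⟩ := gap hdim hα hR hh hpos hΦ he hρ
  obtain ⟨hΦs, hadd, htm⟩ := typeMap hα hR hh hpos hΦ
  let ι : Imm (E := E) M n := ⟨e, he.smooth, he.immersion⟩
  obtain ⟨x₁, -, hx₁⟩ := (isCompact_univ (X := M)).exists_isMinOn univ_nonempty
    hh.continuous.continuousOn
  obtain ⟨x₂, -, hx₂⟩ := (isCompact_univ (X := M)).exists_isMaxOn univ_nonempty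
    hh.continuous.continuousOn
  obtain ⟨A, hA, hinv⟩ := inv_bound ι (c := (⟨hα.toWein, hR.toWein⟩ : CD (toForm α)
    (fun x => (R x : TangentSpace 𝓘(ℝ, E) x)))) (h := h) (m := h x₁) (H := h x₂) (hpos x₁)
    (fun x => hx₁ (mem_univ x)) (fun x => hx₂ (mem_univ x))
  refine ⟨δ / A, by positivity, fun C hC t t' htt G G' hG hG' hGC hcon => ?_⟩
  have hA0 : 0 < A := by linarith
  have hC0 : 0 < C := by linarith
  have hcδ : δ / A / C ^ 2 ≤ δ := by
    have h1 : (1 : ℝ) ≤ C ^ 2 := one_le_pow₀ hC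
    exact (div_le_self (by positivity) h1).trans (div_le_self hδ.le hA)
  have hcomp : ∀ x, Φ (Φ x t) (t' - t) = Φ x t' := fun x => by
    rw [← hadd, add_sub_cancel]
  have hback : ∀ y, Φ (Φ y (-t)) t = y := fun y => by
    rw [← hadd, neg_add_cancel, hΦ.zero]
  refine hgap (t' - t) htt ?_ ?_
  · intro y
    have h1 := (hcon (Φ y (-t))).1
    rw [← hcomp, hback] at h1
    exact h1.trans hcδ
  · intro y w
    obtain ⟨x, hx, v, hv⟩ : ∃ x, Φ x t = y ∧
        ∃ v : E, D (E := E) (E' := E) (fun y => Φ y t) x v = w := by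
      refine ⟨Φ y (-t), hback y, D (E := E) (E' := E) (fun z => Φ z (-t)) y w, ?_⟩
      rw [← D_add hΦs hadd]
      have h1 : (fun z => Φ z (-t + t)) = id := by
        funext z
        rw [neg_add_cancel, hΦ.zero]
        rfl
      rw [h1]
      show mfderiv 𝓘(ℝ, E) 𝓘(ℝ, E) id y w = w
      rw [mfderiv_id]
      rfl
    subst hx
    have h1 : D (E := E) (E' := EuclideanSpace ℝ (Fin n)) e (Φ (Φ x t) (t' - t))
        (D (E := E) (E' := E) (fun y => Φ y (t' - t)) (Φ x t) w) =
        G' x (D (E := E) (E' := EuclideanSpace ℝ (Fin n)) e x v) := by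
      rw [← hG' x v, ← hv, ← D_add hΦs hadd, add_sub_cancel, hcomp]
    have h2 : D (E := E) (E' := EuclideanSpace ℝ (Fin n)) e (Φ x t) w =
        G x (D (E := E) (E' := EuclideanSpace ℝ (Fin n)) e x v) := by
      rw [← hG x v, hv]
    rw [h1, h2]
    have h3 : ‖D (E := E) (E' := EuclideanSpace ℝ (Fin n)) e x v‖ ≤
        A * C ^ 2 * ‖G x (D (E := E) (E' := EuclideanSpace ℝ (Fin n)) e x v)‖ := by
      have h4 := hinv (fun x => Φ x t) (htm t) C hC (fun x v => by
        change ‖D (E := E) (E' := EuclideanSpace ℝ (Fin n)) e (Φ x t)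
          (D (E := E) (E' := E) (fun y => Φ y t) x v)‖ ≤
          C * ‖D (E := E) (E' := EuclideanSpace ℝ (Fin n)) e x v‖
        rw [hG x v]
        exact ((G x).le_opNorm _).trans (mul_le_mul_of_nonneg_right (hGC x) (norm_nonneg _))) x v
      rw [← hG x v]
      exact h4
    have h5 : ‖G' x (D (E := E) (E' := EuclideanSpace ℝ (Fin n)) e x v) -
        G x (D (E := E) (E' := EuclideanSpace ℝ (Fin n)) e x v)‖ ≤
        δ / A / C ^ 2 * ‖D (E := E) (E' := EuclideanSpace ℝ (Fin n)) e x v‖ := by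
      rw [← sub_apply]
      exact ((G' x - G x).le_opNorm _).trans
        (mul_le_mul_of_nonneg_right (hcon x).2 (norm_nonneg _))
    refine h5.trans ((mul_le_mul_of_nonneg_left h3 (by positivity)).trans (le_of_eq ?_))
    field_simp

end Pool.Agent.H754.Reeb
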